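import Pool.Agent.Helper14.FO.Defs2

/-! `ST_TE2a` .. `ST_TE2d`: weighted spectral certificates, tensor products. -/

set_option autoImplicit false

namespace Pool.Agent.Helper14.FO

open Finset

open scoped Kronecker Matrix

theorem te2_iff {V : Type} [Fintype V] (A : Matrix V V ℝ) (hs : ∀ x y, A x y = A y x) :
    (∀ f : V → ℝ, 0 ≤ ∑ x, ∑ y, A x y * f x * f y) ↔ A.PosSemidef := by
  have e : ∀ f : V → ℝ, ∑ x, ∑ y, A x y * f x * f y = star f ⬝ᵥ (A *ᵥ f) := by
    intro f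
    simp only [dotProduct, Matrix.mulVec, star_trivial, mul_sum]
    exact sum_congr rfl fun x _ => sum_congr rfl fun y _ => by ring
  rw [Matrix.posSemidef_iff_dotProduct_mulVec]
  constructor
  · intro h
    refine ⟨?_, fun f => by rw [← e]; exact h f⟩
    ext x y
    rw [Matrix.conjTranspose_apply, star_trivial]
    exact hs y x
  · intro h f
    rw [e]
    exact h.2 f

theorem te2_diag {V : Type} [Fintype V] [DecidableEq V] (ρ f : V → ℝ) :
    ∑ x, ∑ y, (Matrix.diagonal ρ : Matrix V V ℝ) x y * f x * f y = ∑ x, ρ x * f x ^ 2 := by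
  refine sum_congr rfl fun x _ => ?_
  rw [sum_eq_single x]
  · rw [Matrix.diagonal_apply_eq]; ring
  · intro y _ hy
    rw [Matrix.diagonal_apply_ne _ (Ne.symm hy)]
    ring
  · intro h
    exact absurd (mem_univ x) h

theorem te2_dsymm {V : Type} [DecidableEq V] (ρ : V → ℝ) (x y : V) :
    (Matrix.diagonal ρ : Matrix V V ℝ) x y = (Matrix.diagonal ρ : Matrix V V ℝ) y x := by
  by_cases h : x = y
  · rw [h]
  · rw [Matrix.diagonal_apply_ne _ h, Matrix.diagonal_apply_ne _ (Ne.symm h)]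

theorem te2_fm {V : Type} [Fintype V] [DecidableEq V] (ρ : V → ℝ) (E : Matrix V V ℝ) (M : ℝ) :
    FM ρ E M ↔ (∀ x y, E x y = E y x) ∧ (∀ x, ∑ y, E x y = ρ x) ∧
      (E + M • Matrix.diagonal ρ).PosSemidef ∧ (Matrix.diagonal ρ - E).PosSemidef := by
  have e1 : ∀ f : V → ℝ, ∑ x, ∑ y, (E + M • Matrix.diagonal ρ) x y * f x * f y =
      ∑ x, ∑ y, E x y * f x * f y + M * ∑ x, ρ x * f x ^ 2 := by
    intro f
    rw [← te2_diag, mul_sum, ← sum_add_distrib]
    refine sum_congr rfl fun x _ => ?_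
    rw [mul_sum, ← sum_add_distrib]
    refine sum_congr rfl fun y _ => ?_
    rw [Matrix.add_apply, Matrix.smul_apply, smul_eq_mul]
    ring
  have e2 : ∀ f : V → ℝ, ∑ x, ∑ y, (Matrix.diagonal ρ - E) x y * f x * f y =
      ∑ x, ρ x * f x ^ 2 - ∑ x, ∑ y, E x y * f x * f y := by
    intro f
    rw [← te2_diag, ← sum_sub_distrib]
    refine sum_congr rfl fun x _ => ?_
    rw [← sum_sub_distrib]
    refine sum_congr rfl fun y _ => ?_
    rw [Matrix.sub_apply]
    ring
  have s1 : (∀ x y, E x y = E y x) → ∀ x y, (E + M • Matrix.diagonal ρ) x y =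
      (E + M • Matrix.diagonal ρ) y x := by
    intro h x y
    rw [Matrix.add_apply, Matrix.add_apply, Matrix.smul_apply, Matrix.smul_apply, h x y,
      te2_dsymm ρ x y]
  have s2 : (∀ x y, E x y = E y x) → ∀ x y, (Matrix.diagonal ρ - E) x y =
      (Matrix.diagonal ρ - E) y x := by
    intro h x y
    rw [Matrix.sub_apply, Matrix.sub_apply, h x y, te2_dsymm ρ x y]
  constructor
  · rintro ⟨h1, h2, h3, h4⟩
    refine ⟨h1, h2, (te2_iff _ (s1 h1)).1 fun f => ?_, (te2_iff _ (s2 h1)).1 fun f => ?_⟩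
    · rw [e1]; exact h3 f
    · rw [e2]; exact sub_nonneg.2 (h4 f)
  · rintro ⟨h1, h2, h3, h4⟩
    refine ⟨h1, h2, fun f => ?_, fun f => ?_⟩
    · rw [← e1]; exact (te2_iff _ (s1 h1)).2 h3 f
    · have := (te2_iff _ (s2 h1)).2 h4 f
      rw [e2] at this
      exact sub_nonneg.1 this

theorem te2_a {V W : Type} [Fintype V] [Fintype W] [DecidableEq V] [DecidableEq W] (ρ : V → ℝ)
    (σ : W → ℝ) (E : Matrix V V ℝ) (F : Matrix W W ℝ) (G : Matrix (V × W) (V × W) ℝ)
    (hG : ∀ a b, G a b = E a.1 b.1 * F a.2 b.2) (M : ℝ) (hM0 : 0 ≤ M) (hM1 : M ≤ 1)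
    (hE : FM ρ E M) (hF : FM σ F M) : FM (PW ρ σ) G M := by
  obtain ⟨a1, a2, a3, a4⟩ := (te2_fm ρ E M).1 hE
  obtain ⟨b1, b2, b3, b4⟩ := (te2_fm σ F M).1 hF
  have hd : (Matrix.diagonal (PW ρ σ) : Matrix (V × W) (V × W) ℝ) =
      (Matrix.diagonal ρ : Matrix V V ℝ) ⊗ₖ (Matrix.diagonal σ : Matrix W W ℝ) := by
    rw [Matrix.diagonal_kronecker_diagonal]
    rfl
  have h1 : (1 + M) ≠ 0 := by positivity
  have hd' : ∀ x1 x2 y1 y2, (Matrix.diagonal (PW ρ σ) : Matrix (V × W) (V × W) ℝ) (x1, x2) (y1, y2)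
      = (Matrix.diagonal ρ : Matrix V V ℝ) x1 y1 * (Matrix.diagonal σ : Matrix W W ℝ) x2 y2 := by
    intro x1 x2 y1 y2
    rw [hd, Matrix.kronecker_apply]
  refine (te2_fm (PW ρ σ) G M).2 ⟨?_, ?_, ?_, ?_⟩
  · rintro ⟨x1, x2⟩ ⟨y1, y2⟩
    rw [hG, hG]
    change E x1 y1 * F x2 y2 = E y1 x1 * F y2 x2
    rw [a1 x1 y1, b1 x2 y2]
  · rintro ⟨x1, x2⟩
    rw [Fintype.sum_prod_type]
    change ∑ y1, ∑ y2, G (x1, x2) (y1, y2) = ρ x1 * σ x2
    rw [← a2 x1, sum_mul]
    refine sum_congr rfl fun y1 _ => ?_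
    rw [← b2 x2, mul_sum]
    refine sum_congr rfl fun y2 _ => ?_
    rw [hG]
  · have key : G + M • Matrix.diagonal (PW ρ σ) = (1 / (1 + M)) •
        ((E + M • Matrix.diagonal ρ) ⊗ₖ (F + M • Matrix.diagonal σ) +
          M • ((Matrix.diagonal ρ - E) ⊗ₖ (Matrix.diagonal σ - F))) := by
      ext ⟨x1, x2⟩ ⟨y1, y2⟩
      simp only [Matrix.add_apply, Matrix.smul_apply, Matrix.kronecker_apply, Matrix.sub_apply,
        smul_eq_mul, hd', hG]
      field_simp
      ring
    rw [key]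
    exact ((a3.kronecker b3).add ((a4.kronecker b4).smul hM0)).smul (by positivity)
  · have key : Matrix.diagonal (PW ρ σ) - G = (1 / (1 + M) ^ 2) •
        ((1 + M) • ((E + M • Matrix.diagonal ρ) ⊗ₖ (Matrix.diagonal σ - F)) +
          (1 + M) • ((Matrix.diagonal ρ - E) ⊗ₖ (F + M • Matrix.diagonal σ)) +
          (1 - M ^ 2) • ((Matrix.diagonal ρ - E) ⊗ₖ (Matrix.diagonal σ - F))) := by
      ext ⟨x1, x2⟩ ⟨y1, y2⟩
      simp only [Matrix.add_apply, Matrix.smul_apply, Matrix.kronecker_apply, Matrix.sub_apply,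
        smul_eq_mul, hd', hG]
      field_simp
      ring
    rw [key]
    have h2 : 0 ≤ 1 - M ^ 2 := by nlinarith
    exact ((((a3.kronecker b4).smul (by positivity)).add
      ((a4.kronecker b3).smul (by positivity))).add ((a4.kronecker b4).smul h2)).smul
      (by positivity)

theorem st_TE2a : ST_TE2a := by
  classical
  intro V W _ _ ρ σ E F M hM0 hM1 hE hF
  exact te2_a ρ σ E F (fun a b => E a.1 b.1 * F a.2 b.2) (fun _ _ => rfl) M hM0 hM1 hE hF

theorem te2_d {V : Type} [Fintype V] [DecidableEq V] [Nonempty V] (A G : Matrix V V ℝ) (M : ℝ)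
    (hG : ∀ x y, G x y = A x y / Fintype.card V) (hs : ∀ x y, A x y = A y x)
    (a2 : ∀ x, ∑ y, A x y = 1) (a3 : (A + M • (1 : Matrix V V ℝ)).PosSemidef)
    (a4 : ((1 : Matrix V V ℝ) - A).PosSemidef) : FM (UW V) G M := by
  have hN : (0 : ℝ) < Fintype.card V := by exact_mod_cast Fintype.card_pos
  have hN0 : (Fintype.card V : ℝ) ≠ 0 := hN.ne'
  refine (te2_fm (UW V) G M).2 ⟨?_, ?_, ?_, ?_⟩
  · intro x y
    rw [hG, hG, hs x y]
  · intro x
    change ∑ y, G x y = 1 / (Fintype.card V : ℝ)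
    rw [← a2 x, sum_div]
    exact sum_congr rfl fun y _ => hG x y
  · have key : G + M • Matrix.diagonal (UW V) = (1 / (Fintype.card V : ℝ)) •
          (A + M • (1 : Matrix V V ℝ)) := by
      ext x y
      simp only [Matrix.add_apply, Matrix.smul_apply, smul_eq_mul, hG]
      by_cases hxy : x = y
      · rw [hxy, Matrix.diagonal_apply_eq, Matrix.one_apply_eq]
        change A y y / (Fintype.card V : ℝ) + M * (1 / (Fintype.card V : ℝ)) = _
        field_simp
      · rw [Matrix.diagonal_apply_ne _ hxy, Matrix.one_apply_ne hxy]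
        field_simp
        ring
    rw [key]
    exact a3.smul (by positivity)
  · have key : Matrix.diagonal (UW V) - G = (1 / (Fintype.card V : ℝ)) •
        ((1 : Matrix V V ℝ) - A) := by
      ext x y
      simp only [Matrix.sub_apply, Matrix.smul_apply, smul_eq_mul, hG]
      by_cases hxy : x = y
      · rw [hxy, Matrix.diagonal_apply_eq, Matrix.one_apply_eq]
        change 1 / (Fintype.card V : ℝ) - A y y / (Fintype.card V : ℝ) = _
        field_simp
      · rw [Matrix.diagonal_apply_ne _ hxy, Matrix.one_apply_ne hxy]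
        field_simp
        ring
    rw [key]
    exact a4.smul (by positivity)

theorem st_TE2b : ST_TE2b := by
  intro V W _ _ X Y ρ σ M hM0 hM1 hX hY
  obtain ⟨E, e1, e2⟩ := hX
  obtain ⟨F, f1, f2⟩ := hY
  refine ⟨fun a b => E a.1 b.1 * F a.2 b.2, ?_, st_TE2a V W ρ σ E F M hM0 hM1 e2 f2⟩
  intro a b h
  by_cases h1 : X.Adj a.1 b.1
  · have h2 : ¬ Y.Adj a.2 b.2 := fun h2 => h ⟨h1, h2⟩
    change E a.1 b.1 * F a.2 b.2 = 0
    rw [f1 _ _ h2, mul_zero]
  · change E a.1 b.1 * F a.2 b.2 = 0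
    rw [e1 _ _ h1, zero_mul]

theorem st_TE2c : ST_TE2c := by
  intro V _ X ρ M M' hρ hMM hX
  obtain ⟨E, e1, e2, e3, e4, e5⟩ := hX
  refine ⟨E, e1, e2, e3, fun f => ?_, e5⟩
  have h := e4 f
  have h0 : 0 ≤ ∑ x, ρ x * f x ^ 2 := sum_nonneg fun x _ => mul_nonneg (hρ x) (sq_nonneg _)
  nlinarith

theorem st_TE2d : ST_TE2d := by
  intro V _ _ _ X M hX
  obtain ⟨A, a1, a2, a3, a4⟩ := hX
  have hs : ∀ x y, A x y = A y x := by
    intro x y
    have h := congrFun (congrFun a4.isHermitian x) y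
    rw [Matrix.conjTranspose_apply, star_trivial, Matrix.sub_apply, Matrix.sub_apply] at h
    have h1 : (1 : Matrix V V ℝ) y x = (1 : Matrix V V ℝ) x y := by
      by_cases hxy : x = y
      · rw [hxy]
      · rw [Matrix.one_apply_ne hxy, Matrix.one_apply_ne (Ne.symm hxy)]
    rw [h1] at h
    linarith
  refine ⟨fun x y => A x y / Fintype.card V, fun x y h => ?_,
    te2_d A (fun x y => A x y / Fintype.card V) M (fun _ _ => rfl) hs a2 a3 a4⟩
  change A x y / Fintype.card V = 0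
  rw [a1 x y h, zero_div]

end Pool.Agent.Helper14.FO
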