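import Pool.Agent.Helper14.FO.Defs

/-! MP_190084_co: upper bounds in the asymptotic cohomomorphism preorder. -/

set_option autoImplicit false

namespace Pool.Agent.Helper14.FO

open Finset

/-- exponential beats linear -/
theorem upi_num (C ρ : ℝ) (hC : 0 ≤ C) (hρ : 1 < ρ) :
    ∃ j0 : ℕ, ∀ j : ℕ, j0 ≤ j → ((j : ℝ) + 1) * C < ρ ^ j := by
  have h1 := tendsto_pow_const_div_const_pow_of_one_lt 1 hρ
  have h2 : (0 : ℝ) < 1 / (2 * C + 1) := by positivity
  have h3 := h1.eventually (gt_mem_nhds h2)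
  obtain ⟨j0, hj0⟩ := Filter.eventually_atTop.1 h3
  refine ⟨max j0 1, fun j hj => ?_⟩
  have hj1 : 1 ≤ j := le_trans (le_max_right _ _) hj
  have hjr : (1 : ℝ) ≤ j := by exact_mod_cast hj1
  have h4 := hj0 j (le_trans (le_max_left _ _) hj)
  have hρj : 0 < ρ ^ j := pow_pos (by linarith) j
  rw [pow_one, div_lt_div_iff₀ hρj (by positivity), one_mul] at h4
  nlinarith

/-- digits of a colour -/
theorem upi_clique {W' : Type} {Z : SimpleGraph W'} {N K : ℕ} (hN : 1 ≤ N) (hK : 2 ≤ K)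
    (hZ : PowClique Z N K) (n j : ℕ) (hj : j * N ≤ n) :
    ∃ g : Fin (K ^ j) → (Fin n → W'), ∀ a b, a ≠ b → ∃ i, Z.Adj (g a i) (g b i) := by
  obtain ⟨F, hF⟩ := hZ
  have w0 : W' := F ⟨0, by omega⟩ ⟨0, by omega⟩
  refine ⟨fun a i => if h : i.1 / N < j then
    F ((finFunctionFinEquiv.symm a : Fin j → Fin K) ⟨i.1 / N, h⟩) ⟨i.1 % N, Nat.mod_lt _ (by omega)⟩
    else w0, ?_⟩
  intro a b hab
  have h1 : (finFunctionFinEquiv.symm a : Fin j → Fin K) ≠ finFunctionFinEquiv.symm b :=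
    fun h => hab (finFunctionFinEquiv.symm.injective h)
  obtain ⟨t, ht⟩ := Function.ne_iff.1 h1
  obtain ⟨s, hs⟩ := hF _ _ ht
  have h2 : t.1 * N + s.1 < n := by
    have h3 : (t.1 + 1) * N ≤ j * N := Nat.mul_le_mul_right N t.2
    have h4 := s.2
    rw [Nat.add_mul, Nat.one_mul] at h3
    omega
  have h5 : (t.1 * N + s.1) / N = t.1 := by
    rw [Nat.mul_comm, Nat.mul_add_div (by omega), Nat.div_eq_of_lt s.2, Nat.add_zero]
  have h6 : (t.1 * N + s.1) % N = s.1 := by
    rw [Nat.mul_comm, Nat.mul_add_mod, Nat.mod_eq_of_lt s.2]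
  refine ⟨⟨t.1 * N + s.1, h2⟩, ?_⟩
  have h7 : (t.1 * N + s.1) / N < j := by
    rw [h5]
    exact t.2
  have e1 : (⟨(t.1 * N + s.1) / N, h7⟩ : Fin j) = t := Fin.ext h5
  have e2 : (⟨(t.1 * N + s.1) % N, Nat.mod_lt _ (by omega)⟩ : Fin N) = s := Fin.ext h6
  simp only [dif_pos h7, e1, e2]
  exact hs

theorem st_UPI (hCOV : ST_COV) : ST_UPI := by
  intro W' Z N K hN hK hZ W _ Y χ hχ hU hlt
  have hχN : 0 < χ ^ N := pow_pos (by linarith) N
  obtain ⟨C, hC⟩ : ∃ C : ℝ, C = (N : ℝ) * Fintype.card W * χ ^ N := ⟨_, rfl⟩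
  have hC0 : 0 ≤ C := by rw [hC]; positivity
  have hρ : 1 < (K : ℝ) / χ ^ N := by
    rw [lt_div_iff₀ hχN, one_mul]
    exact hlt
  obtain ⟨j0, hj0⟩ := upi_num C _ hC0 hρ
  -- large exponents
  have hbig : ∀ n, N * j0 ≤ n → PowHom Y Z n 1 := by
    intro n hn
    obtain ⟨j, hj⟩ : ∃ j, j = n / N := ⟨_, rfl⟩
    have h1 : j * N ≤ n := by
      rw [hj]
      exact Nat.div_mul_le_self n N
    have h2 : j0 ≤ j := by
      rw [hj, Nat.le_div_iff_mul_le (by omega), Nat.mul_comm]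
      exact hn
    have h3 : n ≤ (j + 1) * N := by
      rw [hj, Nat.add_mul, Nat.one_mul]
      have h4 := Nat.div_add_mod n N
      have h5 := Nat.mod_lt n (show 0 < N by omega)
      rw [Nat.mul_comm] at h4
      omega
    have h4 := hj0 j h2
    have hx0 : 0 < (χ ^ n)⁻¹ := inv_pos.2 (pow_pos (by linarith) n)
    have hx1 : (χ ^ n)⁻¹ ≤ 1 := inv_le_one_of_one_le₀ (one_le_pow₀ hχ)
    have key : ((Fintype.card W : ℝ) ^ n) * (1 - (χ ^ n)⁻¹) ^ (K ^ j) < 1 := by
      have e1 : (Fintype.card W : ℝ) ≤ Real.exp (Fintype.card W) := by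
        have := Real.add_one_le_exp (Fintype.card W : ℝ)
        linarith
      have e2 : 1 - (χ ^ n)⁻¹ ≤ Real.exp (-(χ ^ n)⁻¹) := by
        have := Real.add_one_le_exp (-(χ ^ n)⁻¹)
        linarith
      have e3 : ((Fintype.card W : ℝ) ^ n) * (1 - (χ ^ n)⁻¹) ^ (K ^ j) ≤
          Real.exp (Fintype.card W) ^ n * Real.exp (-(χ ^ n)⁻¹) ^ (K ^ j) := by
        apply mul_le_mul
        · exact pow_le_pow_left₀ (Nat.cast_nonneg _) e1 n
        · exact pow_le_pow_left₀ (by linarith) e2 _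
        · exact pow_nonneg (by linarith) _
        · positivity
      refine lt_of_le_of_lt e3 ?_
      rw [← Real.exp_nat_mul, ← Real.exp_nat_mul, ← Real.exp_add, Real.exp_lt_one_iff]
      have e4 : (n : ℝ) * Fintype.card W * χ ^ n < (K : ℝ) ^ j := by
        have f1 : (n : ℝ) ≤ ((j : ℝ) + 1) * N := by exact_mod_cast h3
        have f2 : χ ^ n ≤ χ ^ N * (χ ^ N) ^ j := by
          rw [← pow_succ', ← pow_mul]
          exact pow_le_pow_right₀ hχ (by rw [Nat.mul_comm]; exact h3)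
        have f3 : (K : ℝ) ^ j = ((K : ℝ) / χ ^ N) ^ j * (χ ^ N) ^ j := by
          rw [← mul_pow, div_mul_cancel₀ _ hχN.ne']
        have f4 : 0 < (χ ^ N) ^ j := pow_pos hχN j
        calc (n : ℝ) * Fintype.card W * χ ^ n
            ≤ (((j : ℝ) + 1) * N) * Fintype.card W * (χ ^ N * (χ ^ N) ^ j) := by
              apply mul_le_mul
              · exact mul_le_mul_of_nonneg_right f1 (Nat.cast_nonneg _)
              · exact f2
              · exact (pow_pos (by linarith) n).le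
              · positivity
          _ = (((j : ℝ) + 1) * C) * (χ ^ N) ^ j := by rw [hC]; ring
          _ < ((K : ℝ) / χ ^ N) ^ j * (χ ^ N) ^ j := mul_lt_mul_of_pos_right h4 f4
          _ = _ := f3.symm
      have e5 : (n : ℝ) * Fintype.card W < (K : ℝ) ^ j * (χ ^ n)⁻¹ := by
        rw [← div_eq_mul_inv, lt_div_iff₀ (pow_pos (by linarith) n)]
        exact e4
      push_cast
      linarith
    obtain ⟨col, hcol⟩ := hCOV W Y χ hχ hU n (K ^ j) key
    obtain ⟨g, hg⟩ := upi_clique hN hK hZ n j h1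
    exact ⟨fun u => (0, g (col u)), fun u v huv => Or.inr (hg _ _ (hcol u v huv))⟩
  -- small exponents
  obtain ⟨w0⟩ : Nonempty W' := by
    obtain ⟨F, _⟩ := hZ
    exact ⟨F ⟨0, by omega⟩ ⟨0, by omega⟩⟩
  have hsmall : ∀ n, PowHom Y Z n (Fintype.card (Fin n → W) + 1) := by
    intro n
    refine ⟨fun u => (Fin.castSucc (Fintype.equivFin (Fin n → W) u), fun _ => w0), ?_⟩
    rintro u v ⟨i, hi⟩
    left
    intro h
    have h1 := (Fintype.equivFin (Fin n → W)).injective (Fin.castSucc_injective _ h)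
    rw [h1] at hi
    exact Y.loopless.irrefl _ hi
  refine ⟨fun n => if N * j0 ≤ n then 1 else Fintype.card (Fin n → W) + 1, ?_, ?_, ?_⟩
  · intro n
    by_cases h : N * j0 ≤ n
    · simp only [if_pos h]; omega
    · simp only [if_neg h]; omega
  · intro ε hε
    refine ⟨N * j0, fun n hn => ?_⟩
    simp only [if_pos hn, Nat.cast_one]
    exact Real.one_le_exp (by positivity)
  · intro n _
    by_cases h : N * j0 ≤ n
    · simp only [if_pos h]
      exact hbig n h
    · simp only [if_neg h]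
      exact hsmall n

end Pool.Agent.Helper14.FO
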